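import Pool.Agent.Helper156_SM.FinT

set_option autoImplicit false

/-!
# MP_07318d_nt: powers of `T` in the remainders of the shifted moments, all `k ≥ 1`

For real `u` let `I_k(u; T) = ∫_0^T ζ(1/2 + i(t + u))^k * conj (ζ(1/2 + i(t - u)))^k dt`, so that `I_k(0; T)` is the
`2k`-th moment of the problem. For every `k ≥ 1`, every `U > 0` and every `θ < 4 U / (3 + 16 U)` the set of the shifts
`u ∈ [-U, U]` for which `I_k(u; T) = M(T) + O(T^θ)` for some admissible main term `M` (depending on `u`) does not have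
full measure: its measure is at most `2 U - c` for some `c > 0`.

Unconditional, for every `k ≥ 1`; the exponent `4 U / (3 + 16 U)` does not depend on `k`, it tends to `1/4` as `U` grows.
-/

open MeasureTheory Set Filter

namespace Pool.Agent.Results.MP_07318d_nt.ShiftedRemainders

/-- The shifted moment of order `2 k`: the integral over `[0, T]` of
`ζ (1/2 + i (t + u)) ^ k * conj (ζ (1/2 + i (t - u))) ^ k`. For `u = 0` it is the integral of
`|ζ (1/2 + i t)| ^ (2 k)`. -/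
noncomputable def shiftedMoment (k : ℕ) (u T : ℝ) : ℂ :=
  ∫ t in (0 : ℝ)..T, riemannZeta (1 / 2 + (t + u) * Complex.I) ^ k *
    (starRingEnd ℂ) (riemannZeta (1 / 2 + (t - u) * Complex.I)) ^ k

/-- The main terms that are allowed: functions `M` with two derivatives on `[1, ∞)`, the second one
continuous, such that `M' (t) = O (t ^ δ)` and `M'' (t) = O (t ^ (δ - 1))` for every `δ > 0`. -/
def IsMainTerm (M : ℝ → ℂ) : Prop :=
  ∃ M' M'' : ℝ → ℂ, (∀ t : ℝ, 1 ≤ t → HasDerivAt M (M' t) t) ∧ (∀ t : ℝ, 1 ≤ t → HasDerivAt M' (M'' t) t) ∧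
    ContinuousOn M'' (Ici 1) ∧
    ∀ δ : ℝ, 0 < δ → ∃ C : ℝ, ∀ t : ℝ, 1 ≤ t → ‖M' t‖ ≤ C * t ^ δ ∧ ‖M'' t‖ ≤ C * t ^ (δ - 1)

/-- The shifted moment has an asymptotic formula with remainder `O (T ^ θ)`. -/
def HasRemainder (k : ℕ) (u θ : ℝ) : Prop :=
  ∃ M : ℝ → ℂ, IsMainTerm M ∧ ∃ C T₀ : ℝ, ∀ T : ℝ, T₀ ≤ T → ‖shiftedMoment k u T - M T‖ ≤ C * T ^ θ

theorem result (k : ℕ) (hk : 1 ≤ k) (U θ : ℝ) (hU : 0 < U) (hθ : θ < 4 * U / (3 + 16 * U)) :
    ∃ c : ℝ, 0 < c ∧ volume {u : ℝ | u ∈ Icc (-U) U ∧ HasRemainder k u θ} ≤ ENNReal.ofReal (2 * U - c) :=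
  Pool.Agent.Helper156_SM.finT hU hθ hk

end Pool.Agent.Results.MP_07318d_nt.ShiftedRemainders
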